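import Pool.Agent.H23.Reductive

set_option autoImplicit false

namespace Pool.Agent.Results.MP_65e938_an.QuasiSimilarNormal

/-- Positive answer to Q1.  Let `H` be a complex Hilbert space and `A` a bounded operator on `H`
that is quasi-similar to a normal operator `N` on `H` (`X A = N X` and `A Y = Y N` with `X`, `Y`
injective with dense range).  If every closed subspace invariant under `A` is invariant under
`A*` (i.e. the weakly closed algebra generated by `A` and `1` is reductive), then `A` is normal. -/
theorem result.{u} (H : Type u) [NormedAddCommGroup H] [InnerProductSpace ℂ H] [CompleteSpace H]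
    (A : H →L[ℂ] H)
    (hqs : ∃ N X Y : H →L[ℂ] H, IsStarNormal N ∧
      (Function.Injective X ∧ DenseRange X) ∧ (Function.Injective Y ∧ DenseRange Y) ∧
      X ∘L A = N ∘L X ∧ A ∘L Y = Y ∘L N)
    (hred : ∀ M : Submodule ℂ H, IsClosed (M : Set H) → (∀ x ∈ M, A x ∈ M) →
      ∀ x ∈ M, (ContinuousLinearMap.adjoint A) x ∈ M) :
    IsStarNormal A := by
  obtain ⟨N, X, Y, hN, ⟨hX, _⟩, ⟨_, hY⟩, h1, h2⟩ := hqs
  exact H23Red.main hN hX hY h1 h2 hred

end Pool.Agent.Results.MP_65e938_an.QuasiSimilarNormal
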